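import Pool.Agent.Lib.MP_b5021c_nt.IfaceJ

/-!
# MP_b5021c_nt, board b5, row L2C

`l2c : L2stepS → L2S`: repeating the step which removes one port of `I`.
-/

namespace Pool.Agent.B5.H58

open Pool.Agent.B5

theorem clsLe_refl {O : Type} [CommRing O] [Coef O] (p : RO O) : ClsLe p p :=
  ⟨fun N h => ⟨N, le_rfl, h⟩, fun _ h => h⟩

theorem clsLe_trans {O : Type} [CommRing O] [Coef O] {p q r : RO O} (h1 : ClsLe p q)
    (h2 : ClsLe q r) : ClsLe p r := by
  refine ⟨fun N h => ?_, fun θ h => h2.2 θ (h1.2 θ h)⟩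
  obtain ⟨N', hN', h'⟩ := h1.1 N h
  obtain ⟨N'', hN'', h''⟩ := h2.1 N' h'
  exact ⟨N'', hN''.trans hN', h''⟩

theorem clsLe_cls {O : Type} [CommRing O] [Coef O] {p q : RO O} (h1 : ClsLe p q)
    (h : (∃ N, ClassV N p) ∨ (∃ θ, ClassP θ p)) : (∃ N, ClassV N q) ∨ (∃ θ, ClassP θ q) := by
  rcases h with ⟨N, h⟩ | ⟨θ, h⟩
  · obtain ⟨N', _, h'⟩ := h1.1 N h
    exact Or.inl ⟨N', h'⟩
  · exact Or.inr ⟨θ, h1.2 θ h⟩

theorem dd_of_wd {O : Type} [CommRing O] [Coef O] {P : Type} [Fintype P] [DecidableEq P]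
    {L : Type} [AddCommGroup L] {phi : L →+ (P → ℤ)} {J : Finset P} {G : AO O L}
    (h : WD phi ∅ J G) : DD phi G where
  inj := h.inj
  bin := by
    intro a ha j
    obtain ⟨h1, _, h3⟩ := h.ww a ha
    by_cases hj : j ∈ J
    · exact h1 j hj
    · exact Or.inl (h3 j (Finset.notMem_empty j) hj)
  st := h.st
  un := h.un
  irr := h.irr
  spn := h.spn

/-- Row L2C. -/
theorem l2c (hs : L2stepS) : L2S := by
  intro O _ _ _ _ P L _ _ _ _ _ phi I J G hW h2 hc
  induction hn : I.card generalizing P L with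
  | zero =>
    have hI : I = ∅ := Finset.card_eq_zero.mp hn
    subst hI
    exact ⟨P, L, inferInstance, inferInstance, inferInstance, inferInstance, inferInstance, phi, G,
      dd_of_wd hW, rfl, clsLe_refl _⟩
  | succ n ih =>
    have hne : I.Nonempty := Finset.card_pos.mp (by omega)
    obtain ⟨i, hi⟩ := hne
    obtain ⟨L', i1, i2, i3, phi', G', hW', hr, hl⟩ := hs O P L phi I J G i hi hW h2 hc
    have hcard : ((I.erase i).map Function.Embedding.some).card = n := by
      rw [Finset.card_map, Finset.card_erase_of_mem hi, hn]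
      rfl
    obtain ⟨P'', L'', j1, j2, j3, j4, j5, phi'', G'', hD, hr', hl'⟩ :=
      ih (Option P) L' phi' ((I.erase i).map Function.Embedding.some)
        (insert none (J.map Function.Embedding.some)) G' hW' (by rw [hr]; exact h2)
        (clsLe_cls hl hc) hcard
    exact ⟨P'', L'', j1, j2, j3, j4, j5, phi'', G'', hD, hr'.trans hr, clsLe_trans hl hl'⟩

end Pool.Agent.B5.H58
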