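import Pool.Agent.Lib.MP_b5021c_nt.IfaceF

/-!
# MP_b5021c_nt, board b5, row RKU

`rku : VcoS → RkS → RkUSS`: the rank of `U_S` is the rank of the support of the closed element
plus one.
-/

namespace Pool.Agent.B5.H58

open Pool.Agent.B5

theorem le_satur {L : Type} [AddCommGroup L] (K : Submodule ℤ L) : K ≤ satur K := by
  intro a ha
  exact ⟨1, one_ne_zero, by rwa [one_smul]⟩

theorem finrank_satur (hR : RkS) {L : Type} [AddCommGroup L] [Module.Free ℤ L]
    [Module.Finite ℤ L] (S : Set L) :
    Module.finrank ℤ (satur (Submodule.span ℤ S)) = rk S := by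
  obtain ⟨_, h2, _, _, _, _, _, _, h9, _⟩ := hR L L
  have e : rk (satur (Submodule.span ℤ S) : Set L) =
      Module.finrank ℤ (satur (Submodule.span ℤ S)) := by
    unfold rk
    rw [Submodule.span_eq]
  rw [← e]
  apply le_antisymm
  · exact h9 _ _ fun a ha => ha
  · exact h2 _ _ fun a ha => le_satur _ (Submodule.subset_span ha)

/-- `(v, n) ↦ v + n S`. -/
noncomputable def gmap {L : Type} [AddCommGroup L] (k : L →+ ℤ) (S : L) (V : Submodule ℤ (Ker k)) :
    (V × ℤ) →ₗ[ℤ] L :=
  LinearMap.coprod ((Ker k).subtype.comp V.subtype) (LinearMap.toSpanSingleton ℤ L S)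

theorem gmap_apply {L : Type} [AddCommGroup L] (k : L →+ ℤ) (S : L) (V : Submodule ℤ (Ker k))
    (x : V × ℤ) : gmap k S V x = ((x.1 : Ker k) : L) + x.2 • S := by
  simp [gmap]

theorem k_gmap {L : Type} [AddCommGroup L] (k : L →+ ℤ) (S : L) (h : k S = 1)
    (V : Submodule ℤ (Ker k)) (x : V × ℤ) : k (gmap k S V x) = x.2 := by
  have h1 : k (((x.1 : Ker k) : L)) = 0 := (x.1 : Ker k).2
  rw [gmap_apply, map_add, map_zsmul, h1, h]
  simp

theorem gmap_inj {L : Type} [AddCommGroup L] (k : L →+ ℤ) (S : L) (h : k S = 1)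
    (V : Submodule ℤ (Ker k)) : Function.Injective (gmap k S V) := by
  rw [← LinearMap.ker_eq_bot, LinearMap.ker_eq_bot']
  intro x hx
  have h2 : x.2 = 0 := by
    rw [← k_gmap k S h V x, hx, map_zero]
  have h1 : ((x.1 : Ker k) : L) = 0 := by
    have := gmap_apply k S V x
    rw [hx, h2, zero_smul, add_zero] at this
    exact this.symm
  have h3 : x.1 = 0 := Subtype.ext (Subtype.ext h1)
  exact Prod.ext h3 h2

/-- Row RKU. -/
theorem rku (hV : VcoS) (hR : RkS) : RkUSS := by
  intro O _ _ _ _ P L _ _ _ _ _ phi D S i0 h eta hinj hbin hS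
  have hS0 : S ≠ 0 := by
    rintro rfl
    rw [map_zero] at h
    exact zero_ne_one h
  obtain ⟨v1, _, _, _, v5⟩ := hV O P L phi D S eta hinj hbin hS hS0
  set k := co phi i0 with hk
  set T : Set L := {a : L | vco eta S D a ≠ 0} with hT
  set V : Set (Ker k) := supp (cl k S h eta D) with hVdef
  have hVT : ∀ a : Ker k, a ∈ V ↔ (a : L) ∈ T := by
    intro a
    have := v5 i0 h a
    change (cl k S h eta D).coeff a ≠ 0 ↔ vco eta S D (a : L) ≠ 0
    rw [← this]
  have hrange : Submodule.span ℤ (insert S T) = LinearMap.range (gmap k S (Submodule.span ℤ V)) := by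
    apply le_antisymm
    · rw [Submodule.span_le]
      rintro a (rfl | ha)
      · exact ⟨(0, 1), by rw [gmap_apply]; simp⟩
      · have hp : prj k S h a ∈ V := by
          rw [hVT, prj_coe, sub_eq_add_neg, ← neg_smul]
          change vco eta S D (a + (-(k a)) • S) ≠ 0
          rw [v1]
          exact (Units.mul_right_eq_zero _).not.mpr ha
        refine ⟨(⟨prj k S h a, Submodule.subset_span hp⟩, k a), ?_⟩
        rw [gmap_apply, prj_coe]
        simp
    · rintro _ ⟨x, rfl⟩
      rw [gmap_apply]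
      apply Submodule.add_mem
      · have h1 : (x.1 : Ker k) ∈ Submodule.span ℤ V := x.1.2
        have h2 : ((Ker k).subtype (x.1 : Ker k)) ∈ Submodule.map (Ker k).subtype (Submodule.span ℤ V) :=
          Submodule.mem_map_of_mem h1
        rw [Submodule.map_span] at h2
        refine Submodule.span_mono ?_ h2
        rintro _ ⟨b, hb, rfl⟩
        exact Or.inr ((hVT b).mp hb)
      · exact Submodule.smul_mem _ _ (Submodule.subset_span (Set.mem_insert _ _))
  have e1 : Module.finrank ℤ (US eta S D) = rk (insert S T) := finrank_satur hR _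
  have e2 : rk (insert S T) = Module.finrank ℤ ((Submodule.span ℤ V) × ℤ) := by
    unfold rk
    rw [hrange]
    exact LinearMap.finrank_range_of_inj (gmap_inj k S h _)
  have e3 : Module.finrank ℤ ((Submodule.span ℤ V) × ℤ) = rk V + 1 := by
    rw [Module.finrank_prod, Module.finrank_self]
    rfl
  rw [e1, e2, e3]

end Pool.Agent.B5.H58
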