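import Pool.Agent.Lib.MP_b5021c_nt.IfaceEF
import Pool.Agent.Lib.MP_b5021c_nt.IfaceF

/-!
# A drop at the load `eB` and a z-free closing at the load `eA = u z^-1 eB` force a zero of
`D_0 + eB D_S` on the circle
-/

namespace Pool.Agent.B5.H58

open Pool.Agent.B5
open scoped LaurentPolynomial
open Polynomial

theorem self_mem_US {O : Type} [CommRing O] {L : Type} [AddCommGroup L] (eta : (RO O)ˣ) (S : L)
    (D : AO O L) : S ∈ US eta S D :=
  ⟨1, one_ne_zero, by rw [one_smul]; exact Submodule.subset_span (Set.mem_insert _ _)⟩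

/-- A z-free element: a non-zero coefficient has no zero on the circle. -/
theorem zfree_ev {O : Type} [CommRing O] [IsDomain O] [IsPrincipalIdealRing O] [Coef O] {L : Type}
    [AddCommGroup L] (G : AO O L) (hz : ZFree G) (a : L) (ha : G.coeff a ≠ 0) (z : Circle) :
    evR z (G.coeff a) ≠ 0 := by
  obtain ⟨q, l, n, hq, h⟩ := hz
  have hs : (G.coeff a).coeff.support.Nonempty := by
    rw [Finsupp.support_nonempty_iff]
    intro h0
    apply ha
    exact AddMonoidAlgebra.coeff_injective h0
  obtain ⟨k, hk⟩ := hs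
  rw [Finsupp.mem_support_iff] at hk
  have hsingle : (G.coeff a).coeff = Finsupp.single k ((G.coeff a).coeff k) := by
    ext j
    rw [Finsupp.single_apply]
    split_ifs with hjk
    · rw [hjk]
    · by_contra hj
      have h1 := h a j hj
      have h2 := h a k hk
      have h3 : (q : ℤ) * j = q * k := by rw [h1, h2]
      have hq' : (q : ℤ) ≠ 0 := by exact_mod_cast hq.ne'
      exact hjk (mul_left_cancel₀ hq' h3).symm
  have h4 : G.coeff a = LaurentPolynomial.C ((G.coeff a).coeff k) * LaurentPolynomial.T k := by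
    rw [← LaurentPolynomial.single_eq_C_mul_T]
    apply AddMonoidAlgebra.coeff_injective
    exact hsingle
  rw [h4]
  unfold evR
  rw [LaurentPolynomial.eval₂_C_mul_T]
  apply mul_ne_zero
  · intro h0
    have := Coef.one_le _ hk
    rw [h0, norm_zero] at this
    linarith
  · exact Units.ne_zero _

theorem azf (hF1 : F1S) (hV : VcoS) (hE : EvRS) {O : Type} [CommRing O] [IsDomain O]
    [IsPrincipalIdealRing O] [Coef O]
    {P L : Type} [Fintype P] [DecidableEq P] [AddCommGroup L] [Module.Free ℤ L] [Module.Finite ℤ L]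
    (phi : L →+ (P → ℤ)) (D : AO O L) (S : L) (i0 : P) (h : co phi i0 S = 1) (eA eB : (RO O)ˣ)
    (c : RO O) (G : AO O (Ker (co phi i0))) (hinj : Function.Injective phi)
    (hbin : ∀ a ∈ supp D, Bin phi a) (hS : Bin phi S)
    (hcl : cl (co phi i0) S h eA D = cst c * G) (hz : ZFree G)
    (hdr : ∃ a ∈ supp D, a ∉ US eB S D)
    (hne : ∀ z : Circle, evR z (D.coeff 0 + (eB : RO O) * D.coeff S) ≠ 0)
    (u : O) (hu : IsUnit u)
    (hab : (eA : RO O) = LaurentPolynomial.C u * LaurentPolynomial.T (-1) * (eB : RO O)) : False := by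
  have hS0 : S ≠ 0 := by
    rintro rfl
    rw [map_zero] at h
    exact absurd h (by norm_num)
  obtain ⟨a, haD, haU⟩ := hdr
  have hSU := self_mem_US eB S D
  -- the base exponent
  obtain ⟨β, hβU, hβS, hβ1, hβ2⟩ : ∃ β : L, β ∉ US eB S D ∧ (∀ i, phi β i = 0 ∨ phi S i = 0) ∧
      D.coeff (β + S) ≠ 0 ∧ phi β i0 = 0 := by
    have hF := hF1 O P L phi D S eB hinj hbin hS hS0
    have hba := hbin a haD
    by_cases hm : ∃ i, phi a i = 1 ∧ phi S i = 1
    · have hall : ∀ i, phi S i = 1 → phi a i = 1 := by
        intro i hi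
        rcases hba i with h0 | h1
        · exact absurd ((hF a haU).1 hm ⟨i, h0, hi⟩) haD
        · exact h1
      refine ⟨a - S, ?_, ?_, ?_, ?_⟩
      · intro hc
        apply haU
        have := (US eB S D).add_mem hc hSU
        simpa using this
      · intro i
        rcases hS i with h0 | h1
        · exact Or.inr h0
        · left
          rw [map_sub, Pi.sub_apply, hall i h1, h1, sub_self]
      · rw [sub_add_cancel]
        exact haD
      · have h1 : phi S i0 = 1 := h
        rw [map_sub, Pi.sub_apply, hall i0 h1, h1, sub_self]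
    · have hdis : ∀ i, phi a i = 0 ∨ phi S i = 0 := by
        intro i
        rcases hba i with h0 | h1
        · exact Or.inl h0
        · rcases hS i with h2 | h2
          · exact Or.inr h2
          · exact absurd ⟨i, h1, h2⟩ hm
      refine ⟨a, haU, hdis, ?_, ?_⟩
      · intro h0
        have := (hF a haU).2 hdis
        rw [h0, mul_zero, add_zero] at this
        exact haD this
      · have h1 : phi S i0 = 1 := h
        rcases hdis i0 with h2 | h2
        · exact h2
        · rw [h1] at h2
          exact absurd h2 (by norm_num)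
  have hFβ := (hF1 O P L phi D S eB hinj hbin hS hS0 β hβU).2 hβS
  have hVA := hV O P L phi D S eA hinj hbin hS hS0
  have hk : β ∈ Ker (co phi i0) := by
    rw [Ker, LinearMap.mem_ker]
    exact hβ2
  set b : Ker (co phi i0) := ⟨β, hk⟩ with hb
  have hco : (cl (co phi i0) S h eA D).coeff b =
      D.coeff β + (eA : RO O) * D.coeff (β + S) := by
    rw [hVA.2.2.2.2 i0 h b]
    exact hVA.2.2.1 β hβS
  have hco0 : (cl (co phi i0) S h eA D).coeff 0 = D.coeff 0 + (eA : RO O) * D.coeff S := by
    rw [hVA.2.2.2.2 i0 h 0]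
    have := hVA.2.2.1 0 (fun i => Or.inl (by rw [map_zero]; rfl))
    rw [zero_add] at this
    exact this
  have hc : ∀ x : Ker (co phi i0), (cl (co phi i0) S h eA D).coeff x = c * G.coeff x := by
    intro x
    rw [hcl]
    unfold cst
    rw [AddMonoidAlgebra.coeff_single_zero_mul]
  -- the point of the circle
  have huc : ‖(Coef.emb u : ℂ)‖ = 1 := by
    have h1 := (hE O).2.1 1 (LaurentPolynomial.C u) (hu.map LaurentPolynomial.C)
    have h2 : evR (1 : Circle) (LaurentPolynomial.C u) = Coef.emb u := by
      unfold evR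
      rw [LaurentPolynomial.eval₂_C]
    rw [h2] at h1
    exact h1
  set z0 : Circle := ⟨Coef.emb u, mem_sphere_zero_iff_norm.mpr huc⟩ with hz0
  have hzA : evR z0 (eA : RO O) = evR z0 (eB : RO O) := by
    rw [hab, map_mul]
    have h3 : evR z0 (LaurentPolynomial.C u * LaurentPolynomial.T (-1)) = 1 := by
      unfold evR
      rw [LaurentPolynomial.eval₂_C_mul_T, zpow_neg_one]
      have : ((Circle.toUnits z0 : ℂˣ) : ℂ) = Coef.emb u := rfl
      rw [← this, Units.mul_inv]
    rw [h3, one_mul]
  have hGb : G.coeff b ≠ 0 := by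
    intro h0
    have h1 := hc b
    rw [hco, h0, mul_zero] at h1
    have h2 : ((eA : RO O) - eB) * D.coeff (β + S) = 0 := by
      linear_combination h1 - hFβ
    rcases mul_eq_zero.mp h2 with h3 | h3
    · have h4 : (LaurentPolynomial.C u * LaurentPolynomial.T (-1) : RO O) = 1 := by
        have h5 : (LaurentPolynomial.C u * LaurentPolynomial.T (-1) - 1) * (eB : RO O) = 0 := by
          rw [sub_mul, one_mul, ← hab, h3]
        rcases mul_eq_zero.mp h5 with h6 | h6
        · exact sub_eq_zero.mp h6
        · exact absurd h6 eB.ne_zero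
      have h7 := congrArg (fun p : RO O => p.coeff 0) h4
      rw [← LaurentPolynomial.single_eq_C_mul_T] at h7
      have h8 : (AddMonoidAlgebra.single (-1 : ℤ) u : RO O).coeff 0 = 0 := by
        change (Finsupp.single (-1 : ℤ) u) 0 = 0
        rw [Finsupp.single_apply, if_neg (by norm_num)]
      have h9 : (1 : RO O).coeff 0 = 1 := by
        rw [AddMonoidAlgebra.one_def]
        change (Finsupp.single (0 : ℤ) (1 : O)) 0 = 1
        rw [Finsupp.single_apply, if_pos rfl]
      simp only [h8, h9] at h7
      exact zero_ne_one h7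
    · exact hβ1 h3
  have h10 : evR z0 (c * G.coeff b) = 0 := by
    rw [← hc b, hco, map_add, map_mul, hzA, ← map_mul, ← map_add, hFβ, map_zero]
  rw [map_mul] at h10
  have h11 : evR z0 c = 0 := by
    rcases mul_eq_zero.mp h10 with h | h
    · exact h
    · exact absurd h (zfree_ev G hz b hGb z0)
  apply hne z0
  rw [map_add, map_mul, ← hzA, ← map_mul, ← map_add, ← hco0, hc 0, map_mul, h11, zero_mul]

end Pool.Agent.B5.H58
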