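import Pool.Agent.Lib.MP_b5021c_nt.B.H58.Cst
import Pool.Agent.Lib.MP_b5021c_nt.B.H58.Azf

/-!
# Board b5, row E6C_ALO: the window, load of type A
-/

namespace Pool.Agent.B5.H58

open Pool.Agent.B5
open scoped LaurentPolynomial
open Polynomial
open Pool.Agent.MP_b5021c_nt (Eis)
open Pool.Agent.B5.H82 (bV3_mono one_le_bV3 bV3_le)

/-- A closed element of full rank with one big factor and no small non-pure factor. -/
theorem onefac (hCLP : ClpS) (hINJ : Inj1S) {O : Type} [CommRing O] [IsDomain O]
    [IsPrincipalIdealRing O] [Coef O]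
    {P L : Type} [Fintype P] [DecidableEq P] [AddCommGroup L] [Module.Free ℤ L] [Module.Finite ℤ L]
    (phi : L →+ (P → ℤ)) (D : AO O L) (S : L) (i0 : P) (eta : (RO O)ˣ)
    (h : co phi i0 S = 1) (c : RO O) (n : ℕ) (G : Fin n → AO O (Ker (co phi i0)))
    (hFP : FP phi D) (fd : FD phi D S i0 eta h c n G) (hs : snp phi S i0 G = ∅)
    (hb : (big G).card = 1)
    (hr : rk (supp (cl (co phi i0) S h eta D)) = Module.finrank ℤ (Ker (co phi i0))) :
    ∃ i : Fin n, cl (co phi i0) S h eta D = cst c * G i ∧
      D.coeff 0 + (eta : RO O) * D.coeff S = c * (G i).coeff 0 ∧ DD (phO phi S i0) (G i) := by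
  classical
  obtain ⟨hbin, hK⟩ := hCLP O P L phi D S i0 eta h c n G hFP fd
  have hall : big G = Finset.univ := by
    ext i
    simp only [Finset.mem_univ, iff_true]
    by_contra hi
    have h1 : ¬ 1 < M ((G i).coeff 0) := by
      intro h2
      exact hi (by unfold big; rw [Finset.mem_filter]; exact ⟨Finset.mem_univ _, h2⟩)
    have h2 : i ∈ snp phi S i0 G := by
      unfold snp
      rw [Finset.mem_filter]
      exact ⟨Finset.mem_univ _, h1, (hK i).1⟩
    rw [hs] at h2
    exact absurd h2 (Finset.notMem_empty _)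
  rw [hall, Finset.card_univ, Fintype.card_fin] at hb
  subst hb
  have heq : cl (co phi i0) S h eta D = cst c * G 0 := by
    rw [fd.eq, Fin.prod_univ_one]
  have hsupp : supp (G 0) = supp (cl (co phi i0) S h eta D) := by
    ext x
    unfold supp
    simp only [Set.mem_setOf_eq]
    rw [heq]
    unfold cst
    rw [AddMonoidAlgebra.coeff_single_zero_mul]
    constructor
    · intro hx
      exact mul_ne_zero fd.c0 hx
    · intro hx h0
      rw [h0, mul_zero] at hx
      exact hx rfl
  refine ⟨0, heq, ?_, ⟨?_, ?_, fd.st 0, fd.un 0, fd.irr 0, ?_⟩⟩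
  · rw [fd.v00, Fin.prod_univ_one]
  · exact (hINJ O P L phi D hFP S fd.cc.ray).2 i0 h
  · rw [hsupp]
    exact hbin
  · rw [hsupp]
    exact hr

theorem alo (hFD : FDS) (hCLP : ClpS) (hINJ : Inj1S) (hCRO : CroS) (hNBF : NbfS) (hBIG : Big6S)
    (hNUM : Num6S) (hFCL : FclS) (hVX : Vx6S) (hJW : Jw3S) (hNVE : NVES) (hMV : MVS)
    (hRkU : RkUSS) (hRk : RkS) (hE1 : E1S) (hF1 : F1S) (hVco : VcoS) (hEvR : EvRS) : Alo6S := by
  classical
  intro P L _ _ _ _ _ phi D S i0 eA eB h w θ N' hFP h3 hRS hθ hP hab hcr hN' hA hnc hfull hdrop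
  have hD := hFP.dd
  have hbexp := big_exp
  have hV : ClassV N' (D.coeff 0 + (eA : RO Eis) * D.coeff S) := typA_classV hA
  have hN1 : 1 ≤ N' := hV.1
  have hMV' := ((hMV Eis).1 N' _ hV).2
  have hMQ : M (D.coeff 0) = θ := ((hMV Eis).2 θ _ hP).2
  have hcc : CC phi D S i0 eA := ⟨hD, by omega, hRS, h, ((hMV Eis).1 N' _ hV).1⟩
  have hfullR : (Module.finrank ℤ L : ℝ) = rk (supp (cl (co phi i0) S h eA D)) + 1 := by
    exact_mod_cast hfull
  obtain ⟨c, n, G, fd⟩ := hFD Eis P L phi D S i0 eA h hcc
  by_cases hbig : big G = ∅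
  · have hsm : ∀ i, ¬ 1 < M ((G i).coeff 0) := by
      intro i hi
      have : i ∈ big G := by
        unfold big
        rw [Finset.mem_filter]
        exact ⟨Finset.mem_univ _, hi⟩
      rw [hbig] at this
      exact absurd this (Finset.notMem_empty _)
    have h1 := hNBF Eis P L phi D S i0 eA h c n G fd hsm
    rw [hMQ, hMV'] at h1
    linarith
  · have hm1 : 1 ≤ (big G).card := by
      rw [Nat.one_le_iff_ne_zero, Ne, Finset.card_eq_zero]
      exact hbig
    obtain ⟨hcV, N₁, hN₁, hprod, hlsd, hrk⟩ := hBIG Eis P L phi D S i0 eA h c n G N' bV3 hFP fd hV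
      bV3_mono one_le_bV3 (fun x _ => hJW x)
    have hMc : 1 ≤ M c := hcV.1
    have hp0 : 0 ≤ ∏ i, N₁ i := Finset.prod_nonneg fun i _ => le_trans zero_le_one (hN₁ i).1.le
    have hple : ∏ i, N₁ i ≤ N' := by nlinarith
    rw [hMQ] at hlsd
    by_cases hsim : Simple (D.coeff 0) (D.coeff 0 + (eA : RO Eis) * D.coeff S) c G
    · -- one big factor
      have hk : co phi i0 ≠ 0 := by
        intro h0
        rw [h0] at h
        simp at h
      have hfk : Module.finrank ℤ (Ker (co phi i0)) + 1 = Module.finrank ℤ L := (hRk L L).1 _ hk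
      have hle := (hRk (Ker (co phi i0)) (Ker (co phi i0))).2.2.1
        (supp (cl (co phi i0) S h eB D))
      have hrA : rk (supp (cl (co phi i0) S h eA D)) = Module.finrank ℤ (Ker (co phi i0)) := by
        omega
      have hVB : D.coeff 0 + (eB : RO Eis) * D.coeff S ≠ 0 := by
        intro h0
        have := hnc 1
        rw [h0] at this
        exact this (by unfold evR; simp)
      have hsn := hCRO Eis P L phi D S i0 eA h c n G fd hrA hsim eB hVB (Or.inl hcr) (by omega)
      obtain ⟨i, heq, hv0, hDD⟩ := onefac hCLP hINJ phi D S i0 eA h c n G hFP fd hsn hsim.1 hrA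
      rw [hv0] at hV
      obtain ⟨Na, Nb, ha, hb, hNab⟩ := (hE1 Eis).1 N' _ _ hV
      have hNa : Na = 1 := by
        rw [← ((hMV Eis).1 Na _ ha).2]
        exact hsim.2.1
      have hb' : ClassV N' ((G i).coeff 0) := by
        rw [hNab, hNa, one_mul]
        exact hb
      rcases hFCL Eis P (Ker (co phi i0)) (phO phi S i0) (G i) N' hDD hb' (by omega) with
        hz | ⟨N'', b, D', hN'', hDD', hV'', hfr⟩
      · exfalso
        refine azf hF1 hVco hEvR phi D S i0 h eA eB c (G i) hD.inj hD.bin (hD.bin _ hRS.1) heq hz ?_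
          hnc (w : Eis) w.isUnit hab
        by_contra hno
        push Not at hno
        have h1 : rk (supp D) ≤ Module.finrank ℤ (US eB S D) := by
          unfold rk
          exact Submodule.finrank_mono (Submodule.span_le.mpr hno)
        rw [hD.spn, hRkU Eis P L phi D S i0 h eB hD.inj hD.bin (hD.bin _ hRS.1)] at h1
        omega
      · have hK : Module.finrank ℤ (Ker (co phi i0) × ℤ) = Module.finrank ℤ L := by omega
        rcases le_or_gt 4 N'' with h4 | h4
        · have h5 := hVX N'' h4 _ _ _ D' hDD' hV''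
          rw [hK] at h5
          linarith
        · have h5 := hJW N'' _ _ _ D' hDD' hV''
          rw [hK] at h5
          have h6 := bV3_le hV''.1
          linarith
    · have hsq : ∀ i, Real.sqrt 3 ≤ N₁ i := by
        intro i
        obtain ⟨hi1, Q', hQ'⟩ := hN₁ i
        rcases hNVE _ _ hQ' with h | h
        · linarith
        · exact h
      have h1 := hNUM θ (big G).card (snp phi S i0 G).card 0 N₁ hθ hm1 hsq (by linarith) (by
        intro hm
        by_cases hc1 : M c = 1
        · have h2 : ¬ M (D.coeff 0) ^ 2 < 2 * M (D.coeff 0 + (eA : RO Eis) * D.coeff S) ^ 2 :=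
            fun h2 => hsim ⟨hm, hc1, h2⟩
          rw [hMQ, hMV'] at h2
          push Not at h2
          have h3 : ∏ i, N₁ i = N' := by rw [← hprod, hc1, one_mul]
          rw [h3]
          by_contra h4
          push Not at h4
          nlinarith
        · have h2 : Real.sqrt 3 ≤ M c := by
            rcases hNVE _ _ hcV with h | h
            · exact absurd h hc1
            · exact h
          have h3 : (17 / 10 : ℝ) ≤ Real.sqrt 3 := by
            rw [show (17 / 10 : ℝ) = Real.sqrt ((17 / 10) ^ 2) from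
              (Real.sqrt_sq (by norm_num)).symm]
            exact Real.sqrt_le_sqrt (by norm_num)
          have h4 : 17 / 10 * ∏ i, N₁ i ≤ N' := by
            rw [← hprod]
            exact mul_le_mul_of_nonneg_right (h3.trans h2) hp0
          linarith) (by linarith) (Or.inl (by norm_num))
      push_cast at h1
      linarith

end Pool.Agent.B5.H58
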