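import Pool.Agent.Lib.MP_b5021c_nt.B.H58.Ncs

namespace Pool.Agent.B5.H58

open Pool.Agent.B5
open Pool.Agent.MP_b5021c_nt (Eis)

theorem ccs (h1 : CstS) (h2 : FpRedS) (h3 : Jq3S) : CcS := by
  have hn := ncs
  have key : ∀ (n : ℕ) (θ : ℝ), θ ≤ Real.exp 400 + n / 2 → BdP Eis θ (bC θ) := by
    intro n
    induction n with
    | zero =>
      intro θ hθ P L _ _ _ _ _ phi D hD hc
      have hθ1 : 1 ≤ θ := hc.1.le
      have h4 := h3 θ P L phi D hD hc
      have h5 := hn.2.1 θ hθ1 (by simpa using hθ)
      linarith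
    | succ n ih =>
      intro θ hθ
      rcases le_or_gt θ (Real.exp 400 + n / 2) with h | h
      · exact ih θ h
      · intro P L _ _ _ _ _ phi D hD hc
        have hθ1 : 1 ≤ θ := hc.1.le
        have he : Real.exp 400 ≤ θ := by
          have : (0 : ℝ) ≤ n / 2 := by positivity
          linarith
        have he2 : (401 : ℝ) ≤ Real.exp 400 := by
          have := Real.add_one_le_exp (400 : ℝ)
          linarith
        have h6 := (hn.2.2.1 θ hθ1).2
        rcases Nat.lt_or_ge (Module.finrank ℤ L) 4 with hr | hr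
        · have : (Module.finrank ℤ L : ℝ) ≤ 3 := by exact_mod_cast Nat.lt_succ_iff.mp hr
          linarith
        · obtain ⟨P', L', i1, i2, i3, i4, i5, phi', D', hfp, hrk, hcl, _⟩ :=
            h2 Eis P L phi D hD (by omega) (Or.inr ⟨θ, hc⟩)
          have h7 := h1 P' L' phi' D' θ he hfp (hcl.2 θ hc) (by rw [hrk]; exact hr) (by
            intro x hx
            apply ih
            push_cast at hθ
            linarith)
          rw [hrk] at h7
          exact h7
  intro θ
  obtain ⟨n, hn2⟩ := exists_nat_ge (2 * (θ - Real.exp 400))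
  exact key n θ (by linarith)

theorem ccf (h : CcS) : CcfS := by
  obtain ⟨t, ht⟩ := ncs.2.2.2.2
  refine ⟨t, fun θ hθ => ?_⟩
  have := h θ
  rw [ht θ hθ] at this
  exact this

end Pool.Agent.B5.H58
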