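import Pool.Agent.Lib.MP_b5021c_nt.IfaceE6Cr
import Pool.Agent.Lib.MP_b5021c_nt.B.H36.Jp3

/-!
# Board b5, row E6C_CST: the induction step for complex elements (assembly)
-/

namespace Pool.Agent.B5.H58

open Pool.Agent.B5
open scoped LaurentPolynomial
open Polynomial
open Pool.Agent.MP_b5021c_nt (Eis)
open Pool.Agent.B5.H82 (exists_pivot adj_ne)
open Pool.Agent.B5.H36 (cross_ne)

theorem big_exp : (1000000000000 : ℝ) ≤ Real.exp 400 := by
  have h1 : (2 : ℝ) ≤ Real.exp 1 := by linarith [Real.add_one_le_exp (1 : ℝ)]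
  have h2 : Real.exp 400 = Real.exp 1 ^ 400 := by
    rw [← Real.exp_nat_mul]
    norm_num
  rw [h2]
  calc (1000000000000 : ℝ) ≤ 2 ^ 40 := by norm_num
    _ ≤ 2 ^ 400 := pow_le_pow_right₀ (by norm_num) (by norm_num)
    _ ≤ Real.exp 1 ^ 400 := by gcongr

/-- A load of type A leads to class `V`. -/
theorem typA_classV {O : Type} [CommRing O] [IsDomain O] [Coef O] {N' : ℝ} {Q V : RO O}
    (h : TypA N' Q V) : ClassV N' V := by
  obtain ⟨n, q, e, -, hV, -, he, hz⟩ := h
  have h0 : e.coeff 0 ≠ 0 := by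
    intro h0
    have := hz 0 (by simp)
    rw [← Polynomial.coeff_zero_eq_eval_zero, Polynomial.coeff_map, h0, map_zero] at this
    exact this rfl
  refine ⟨?_, n + 1, e, hV, he, hz⟩
  rw [← he]
  exact Coef.one_le _ h0

theorem tyB_mono {O : Type} [CommRing O] [Coef O] {a b : ℝ} (hab : a ≤ b) {Q F : RO O}
    {e : (RO O)ˣ} (h : TyB a Q F e) : TyB b Q F e := by
  obtain ⟨m, q, f, h1, h2, h3, h4, h5⟩ := h
  exact ⟨m, q, f, h1, h2, h3, h4, h5.trans hab⟩

theorem e6c_cst (hN : NcsS) (hE2 : E2S) (hMV : MVS) (hLP : Lp5S) (hWB : Wb5S) (hWC : Wc5S)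
    (hSL : Sl4S) (hMF : MfcS) (hCL4 : Cl4S) (hONE : One6S) (hPAI : Pai6S) (hSNG : Sng6S)
    (hALO : Alo6S) (hTTW : Ttw6S) : CstS := by
  intro P L _ _ _ _ _ phi D θ hθ hFP hP h4 hIH
  have hD := hFP.dd
  have htwo : 2 ≤ Module.finrank ℤ L := by omega
  have hbig := big_exp
  have hθ6 : (1000000 : ℝ) ≤ θ := by linarith
  have hθpos : (0 : ℝ) < θ := by linarith
  have hinv : θ⁻¹ ≤ 1 / 1000000 := by
    rw [inv_eq_one_div]
    exact one_div_le_one_div_of_le (by norm_num) hθ6
  have hinv0 : 0 < θ⁻¹ := inv_pos.mpr hθpos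
  obtain ⟨-, -, hb, hs, -⟩ := hN
  have hbθ := (hb θ (by linarith)).2
  obtain ⟨hz, -, -, -, -, hray⟩ := hE2 Eis P L phi D hD htwo
  have hMQ : M (D.coeff 0) = θ := ((hMV Eis).2 θ _ hP).2
  have hneP : ∀ (t : ℝ) (V : RO Eis), ClassP t V → V ≠ 0 := fun t V h => ((hMV Eis).2 t _ h).1
  have hneG : ∀ (t : ℝ) (F : RO Eis) (e : (RO Eis)ˣ), Gp θ t (D.coeff 0) F e →
      D.coeff 0 + (e : RO Eis) * F ≠ 0 := by
    rintro t F e ⟨θ', -, -, h⟩
    exact hneP _ _ h
  -- the loads
  have hex : ∀ S : L, ∃ e : (RO Eis)ˣ, Ray D S →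
      ((Gp θ (θ - 51 / 100) (D.coeff 0) (D.coeff S) e ∧
          ¬ Car (D.coeff 0) ((e : RO Eis) * D.coeff S) ∧ TyB 0 (D.coeff 0) (D.coeff S) e) ∨
        (θ / 11 < M (D.coeff S) ∧ Gp θ (23 / 25 * θ + 7) (D.coeff 0) (D.coeff S) e) ∨
        (∃ e₂ : (RO Eis)ˣ, Adj e e₂ ∧ ‖mn ((e : RO Eis) * D.coeff S) (D.coeff 0)‖ ≤ 1 / 4 ∧
          Gp θ (θ - 1 / 2 - 1 / θ) (D.coeff 0) (D.coeff S) e ∧
          Gp θ (θ - 1 / 2 - 1 / θ) (D.coeff 0) (D.coeff S) e₂) ∨
        (∃ (x y : ℝ) (n : ℤ) (q f : Eis[X]) (s r : ℂ[X]) (T c : ℂ),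
          Wn θ (D.coeff 0) (D.coeff S) e x y n q f s r T c) ∨
        (∃ N' : ℝ, N' ≤ 72 / 100 * θ + 1 ∧
          TypA N' (D.coeff 0) (D.coeff 0 + (e : RO Eis) * D.coeff S))) := by
    intro S
    by_cases hS : Ray D S
    · rcases hLP θ (D.coeff 0) (D.coeff S) hθ6 hP hS.1 hz (hray S hS).1 (hray S hS).2 with
        ⟨e, h⟩ | ⟨h0, e, h⟩ | ⟨e₁, e₂, h⟩ | ⟨e, x, y, n, q, f, s, r, T, c, h⟩ | ⟨e, N', h⟩
      · exact ⟨e, fun _ => Or.inl h⟩
      · exact ⟨e, fun _ => Or.inr (Or.inl ⟨h0, h⟩)⟩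
      · exact ⟨e₁, fun _ => Or.inr (Or.inr (Or.inl ⟨e₂, h⟩))⟩
      · exact ⟨e, fun _ => Or.inr (Or.inr (Or.inr (Or.inl ⟨x, y, n, q, f, s, r, T, c, h⟩)))⟩
      · exact ⟨e, fun _ => Or.inr (Or.inr (Or.inr (Or.inr ⟨N', h⟩)))⟩
    · exact ⟨1, fun h => absurd h hS⟩
  choose eta heta using hex
  have hne : ∀ S, Ray D S → D.coeff 0 + (eta S : RO Eis) * D.coeff S ≠ 0 := by
    intro S hS
    rcases heta S hS with ⟨h, -⟩ | ⟨-, h⟩ | ⟨e₂, -, -, h, -⟩ |
      ⟨x, y, n, q, f, s, r, T, c, h⟩ | ⟨N', -, h⟩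
    · exact hneG _ _ _ h
    · exact hneG _ _ _ h
    · exact hneG _ _ _ h
    · exact hneG _ _ _ (hWB θ _ _ _ x y n q f s r T c hθ6 h).2.2.1
    · exact ((hMV Eis).1 N' _ (typA_classV h)).1
  obtain ⟨S, g, hRS, hUS, hdim, hM, hgs, hother, hmut1, hmut2, -⟩ :=
    hSL Eis P L phi D eta hD htwo hne
  obtain ⟨i0, hi0⟩ := exists_pivot hD.inj hRS.2.1 (hD.bin _ hRS.1)
  have hdimN := hdim i0 hi0
  have hd : (Module.finrank ℤ L : ℝ) =
      rk (supp (cl (co phi i0) S hi0 (eta S) D)) + 1 + g := by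
    exact_mod_cast hdimN
  have hcc : CC phi D S i0 (eta S) := ⟨hD, htwo, hRS, hi0, hne S hRS⟩
  -- a mutual partner gives the cardioid condition
  have hcar : 1 ≤ g → Car (D.coeff 0) ((eta S : RO Eis) * D.coeff S) := by
    intro hg
    obtain ⟨S1, hm⟩ := hmut1 hg
    intro z x y hx hy
    have h1 := hMF Eis P L phi D S S1 _ _ hD htwo hm z x y hx hy
    intro h2
    apply h1
    rw [map_add] at h2
    linear_combination h2
  -- the bound of the induction hypothesis
  have hBd : ∀ x : ℝ, x ≤ θ - 1 / 2 → BdP Eis x (bC x) := hIH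
  have hb1 : ∀ x : ℝ, 1 < x → 1 ≤ bC x := by
    intro x hx
    have := (hb x hx.le).2
    linarith
  rcases heta S hRS with ⟨hG, hnc, hT⟩ | ⟨hMF', hG⟩ | ⟨e₂, hadj, hmn, hG1, hG2⟩ |
      ⟨x, y, n, q, f, s, r, T, c, hW⟩ | ⟨N', hN', hA⟩
  · -- very heavy
    have hg0 : g = 0 := by
      by_contra hg
      exact hnc (hcar (by omega))
    subst hg0
    obtain ⟨θ', h1, h2, h3, h5 | h5 | h5⟩ := hONE Eis P L phi D S i0 (eta S) hi0 θ _ 0 hFP htwo
      hRS hθ6 hP hG (tyB_mono (by linarith) hT) (fun _ => tyB_mono (by norm_num) hT) hdimN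
    · push_cast at h5
      linarith
    · linarith
    · have h6 := h5 (bC θ') (hb1 θ' h3) (hBd θ' (by linarith))
      have h7 := (hs θ θ' (by linarith) h3.le).1 (by
        have : 1 / θ = θ⁻¹ := (inv_eq_one_div θ).symm
        linarith)
      push_cast at h6
      linarith
  · -- heavy
    obtain ⟨θ', h1, h2, hV⟩ := hG
    have h3 : 1 < θ' := hV.1
    have hg : (g : ℝ) < 12 := by
      by_contra hg
      push Not at hg
      rw [hMQ] at hM
      have : (0 : ℝ) < M (D.coeff S) := by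
        have : 0 < θ / 11 := by positivity
        linarith
      nlinarith
    have hg' : (g : ℝ) ≤ 11 := by
      have : g < 12 := by exact_mod_cast hg
      have : g ≤ 11 := by omega
      exact_mod_cast this
    have hbu := (hb θ' h3.le).1
    obtain ⟨l, h5 | h5⟩ := (hCL4 Eis P L phi D S i0 (eta S) hi0 hcc).2 θ' hV (bC θ') (hb1 θ' h3)
      (hBd θ' (by linarith))
    · rw [hMQ] at h5
      linarith [h5.1, h5.2]
    · rw [hMQ] at h5
      have hl : (l : ℝ) < 6 := by
        by_contra hl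
        push Not at hl
        nlinarith [h5.1]
      have hl' : (l : ℝ) ≤ 5 := by
        have : l < 6 := by exact_mod_cast hl
        have : l ≤ 5 := by omega
        exact_mod_cast this
      linarith [h5.2]
  · -- pair
    have hfull : Module.finrank ℤ L = rk (supp (cl (co phi i0) S hi0 (eta S) D)) + 1 ∨
        Module.finrank ℤ L = rk (supp (cl (co phi i0) S hi0 e₂ D)) + 1 := by
      rcases Nat.eq_zero_or_pos g with hg | hg
      · left
        rw [hg] at hdimN
        simpa using hdimN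
      · right
        exact hother hg e₂ (fun h => adj_ne hadj h.symm) i0 hi0
    obtain ⟨θ', h1, h2, h3, h5 | h5 | ⟨h6, h5⟩⟩ := hPAI Eis P L phi D S i0 (eta S) e₂ hi0 θ _ hFP
      (by omega) hRS hθ6 hP hadj hmn hG1 hG2 hfull
    · linarith
    · have h6 := h5 (bC θ') (hb1 θ' h3) (hBd θ' (by
        have : 0 < 1 / θ := by positivity
        linarith))
      have h7 := (hs θ θ' (by linarith) h3.le).1 h2
      linarith
    · have h7 := h5 (bC θ') (hb1 θ' h3) (hBd θ' (by
        have : 0 < 1 / θ := by positivity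
        linarith))
      have h8 := (hb θ' h3.le).1
      have h9 : θ' ≤ 71 / 100 * θ := by
        by_contra h9
        push Not at h9
        nlinarith
      linarith
  · -- window
    obtain ⟨hx, hc, hG, hT3', hT1⟩ := hWB θ _ _ _ x y n q f s r T c hθ6 hW
    have hT3 := tyB_mono (b := θ / 10 + 1) (by linarith) hT3'
    rcases Nat.eq_zero_or_pos g with hg | hg
    · subst hg
      obtain ⟨θ', h1, h2, h3, h5 | h5 | h5⟩ := hONE Eis P L phi D S i0 (eta S) hi0 θ _ 0 hFP htwo
        hRS hθ6 hP hG hT3 hT1 hdimN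
      · push_cast at h5
        linarith
      · linarith
      · have h6 := h5 (bC θ') (hb1 θ' h3) (hBd θ' (by linarith))
        have h7 := (hs θ θ' (by linarith) h3.le).1 (by
          have : 1 / θ = θ⁻¹ := (inv_eq_one_div θ).symm
          linarith)
        push_cast at h6
        linarith
    · obtain ⟨hu, hnc, ⟨hx1, hG'⟩ | ⟨eA, w, N', heA, hcr, -, hN', hA⟩⟩ :=
        hWC θ _ _ _ x y n q f s r T c hθ6 hW (hcar hg)
      · have h500 : 0 < 1 / (500 * θ) := by positivity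
        rcases Nat.lt_or_ge 1 g with hg2 | hg1
        · -- drop at least two
          obtain ⟨S1, S2, hm1, hm2, hs1, hs2⟩ := hmut2 hg2
          rcases hTTW P L phi D S S1 S2 _ _ _ θ x y n q f s r T c hFP h4 hθ6 hm1 hm2 hs1 hs2 hW
            hx1 hc hu with h5 | ⟨θ'', h5, h6⟩
          · linarith
          · have h35 : 35 / θ ≤ 35 / 1000000 :=
              div_le_div_of_nonneg_left (by norm_num) (by norm_num) hθ6
            have h501 : 1 / (500 * θ) ≤ 1 / 500000000 :=
              one_div_le_one_div_of_le (by norm_num) (by linarith)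
            rcases le_or_gt 1 θ'' with h7 | h7
            · have h8 := h6 (bC θ'') (hBd θ'' (by linarith))
              have h9 := (hs θ θ'' (by linarith) h7).2 (by linarith)
              linarith
            · have h8 := h6 0 (by
                intro P' L' _ _ _ _ _ phi' D' _ hc'
                exact absurd hc'.1 (by linarith))
              linarith
        · have hg1' : g = 1 := by omega
          subst hg1'
          obtain ⟨θ', h1, h2, h3, h5 | h5 | h5⟩ := hONE Eis P L phi D S i0 (eta S) hi0 θ _ 1 hFP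
            htwo hRS hθ6 hP hG' hT3 hT1 hdimN
          · push_cast at h5
            linarith
          · linarith
          · have h6 := h5 (bC θ') (hb1 θ' h3) (hBd θ' (by linarith))
            have h7 := (hs θ θ' (by linarith) h3.le).2 h2
            push_cast at h6
            linarith
      · have hAne : eA ≠ eta S := fun h => cross_ne hcr h.symm
        have h5 := hALO P L phi D S i0 eA (eta S) hi0 w θ N' hFP (by omega) hRS hθ hP heA hcr hN' hA
          hnc (hother hg eA hAne i0 hi0) (by omega)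
        linarith
  · -- single
    have := hSNG P L phi D S i0 (eta S) hi0 θ N' g hFP htwo hRS hθ hP hA hN' hdimN hgs
    linarith

end Pool.Agent.B5.H58
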