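import Pool.Agent.Lib.MP_b5021c_nt.IfaceE6C

namespace Pool.Agent.B5.H58

open Pool.Agent.B5

theorem sC_lip (x y : ℝ) (hx : 1 ≤ x) (hxy : x ≤ y) : sC x - sC y ≤ (y - x) / (400 * x) := by
  have hx0 : 0 < x := by linarith
  have hy0 : 0 < y := by linarith
  have h1 : Real.log y - Real.log x ≤ (y - x) / x := by
    rw [← Real.log_div hy0.ne' hx0.ne']
    have := Real.log_le_sub_one_of_pos (div_pos hy0 hx0)
    have h2 : y / x - 1 = (y - x) / x := by field_simp
    linarith
  have h3 : 0 ≤ (y - x) / x := div_nonneg (by linarith) hx0.le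
  have h4 : (y - x) / (400 * x) = (y - x) / x / 400 := by field_simp
  rw [h4]
  unfold sC
  rcases le_total (97 / 100 : ℝ) (480001 - Real.log x / 400) with h | h
  · rw [max_eq_right h]
    have := le_max_right (97 / 100 : ℝ) (480001 - Real.log y / 400)
    linarith
  · rw [max_eq_left h]
    have := le_max_left (97 / 100 : ℝ) (480001 - Real.log y / 400)
    linarith

theorem bC_mono (x y : ℝ) (hx : 1 ≤ x) (hxy : x ≤ y) : bC x ≤ bC y := by
  have h := sC_lip x y hx hxy
  have h2 : (y - x) / (400 * x) ≤ y - x := by
    rw [div_le_iff₀ (by linarith)]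
    nlinarith
  unfold bC
  linarith

theorem ncs : NcsS := by
  refine ⟨bC_mono, ?_, ?_, ?_, ?_⟩
  · intro x hx hxe
    have h1 : Real.log x ≤ 400 := by
      rw [← Real.log_exp 400]
      exact Real.log_le_log (by linarith) hxe
    unfold bC sC
    have := le_max_right (97 / 100 : ℝ) (480001 - Real.log x / 400)
    linarith
  · intro x hx
    have h1 : 0 ≤ Real.log x := Real.log_nonneg hx
    unfold bC sC
    constructor
    · have : max (97 / 100 : ℝ) (480001 - Real.log x / 400) ≤ 480001 := by
        apply max_le (by norm_num)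
        linarith
      linarith
    · have := le_max_left (97 / 100 : ℝ) (480001 - Real.log x / 400)
      linarith
  · intro θ x hθ hx
    have hθ0 : (0 : ℝ) < θ := by linarith
    have hi : 0 < 1 / θ := by positivity
    have hi2 : 1 / θ ≤ 1 / 401 := one_div_le_one_div_of_le (by norm_num) hθ
    have hmul : 1 / θ * θ = 1 := by field_simp
    constructor
    · intro h
      set y : ℝ := θ - 1 / 2 - 1 / θ with hy
      have hy1 : 1 ≤ y := by linarith
      have h1 := bC_mono x y hx h
      have h2 := sC_lip y θ hy1 (by linarith)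
      have h3 : (θ - y) / (400 * y) ≤ 2 / θ := by
        rw [div_le_div_iff₀ (by linarith) hθ0]
        have : θ - y = 1 / 2 + 1 / θ := by rw [hy]; ring
        rw [this]
        have e : (1 / 2 + 1 / θ) * θ = θ / 2 + 1 := by linear_combination hmul
        rw [e]
        nlinarith
      have h4 : (2 : ℝ) / θ = 2 * (1 / θ) := by ring
      unfold bC at h1 ⊢
      linarith
    · intro h
      have e5 : 1 / (500 * θ) = 1 / θ / 500 := by field_simp
      rw [e5] at h
      set y : ℝ := θ - 1 - 1 / θ / 500 with hy
      have hy1 : 1 ≤ y := by linarith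
      have h1 := bC_mono x y hx h
      have h2 := sC_lip y θ hy1 (by linarith)
      have h3 : (θ - y) / (400 * y) ≤ 2 / 500 * (1 / θ) := by
        have e6 : 2 / 500 * (1 / θ) = 2 / (500 * θ) := by field_simp
        rw [e6, div_le_div_iff₀ (by linarith) (by positivity)]
        have : θ - y = 1 + 1 / θ / 500 := by rw [hy]; ring
        rw [this]
        have e : (1 + 1 / θ / 500) * (500 * θ) = 500 * θ + 1 := by linear_combination hmul
        rw [e]
        nlinarith
      unfold bC at h1 ⊢
      linarith
  · refine ⟨Real.exp (400 * 480001), ?_⟩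
    intro θ hθ
    have hθ0 : 0 < θ := lt_of_lt_of_le (Real.exp_pos _) hθ
    have h1 : 400 * 480001 ≤ Real.log θ := by
      rw [← Real.log_exp (400 * 480001)]
      exact Real.log_le_log (Real.exp_pos _) hθ
    unfold bC sC
    rw [max_eq_left (by linarith)]

end Pool.Agent.B5.H58
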